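import Pool.Agent.H636R3.QMain

/-!
# MP_554556_an, Q1 (proved)

If the system `A_ℓ x^(ℓ) + … + A_1 x' + A_0 x = 0` over the real quaternions, with `A_k` hermitian for
even `k` and skewhermitian for odd `k` and with `A_ℓ` invertible, is stably bounded and its companion
matrix `C` is invertible, then every root subspace of `C` is `GC`-positive or `GC`-negative.

The definitions are in `Pool/Agent/H636R3/QDefs.lean`.
-/

set_option autoImplicit false

open Matrix

namespace Pool.Agent.Results.MP_554556_an.DefiniteRootSubspaces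

open Pool.Agent.H636R3.Quat

/-- **Q1 holds.** -/
theorem result (n ℓ : ℕ) (hn : 1 ≤ n) (hℓ : 1 ≤ ℓ) (A : ℕ → Matrix (Fin n) (Fin n) H)
    (hA : SymCoeff ℓ A) (hinv : IsUnit (A ℓ)) (hC : IsUnit (companion ℓ A))
    (hst : IsStablyBounded ℓ A) (l : H) (hl : IsEigenvalue (companion ℓ A) l) :
    IsPositiveOn (gmat ℓ A * companion ℓ A) (rootSubspace (companion ℓ A) l) ∨
      IsNegativeOn (gmat ℓ A * companion ℓ A) (rootSubspace (companion ℓ A) l) := by
  obtain ⟨L, rfl⟩ : ∃ L, ℓ = L + 1 := ⟨ℓ - 1, by omega⟩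
  set C := companion (L + 1) A with hCdef
  -- the system is bounded
  have hb : IsBoundedSystem (L + 1) A := by
    obtain ⟨ε, hε, h⟩ := hst
    exact h A hA (fun k _ a b => by rw [sub_self, norm_zero]; exact hε)
  -- the eigenvalue is purely imaginary and not zero
  obtain ⟨V, hV0, hV⟩ := hl
  have hre : l.re = 0 := by
    by_contra hre
    exact unbounded_exp (eigvec_ne hV hV0) hre (eigvec_eq hinv hV) hb
  have hl0 : l ≠ 0 := by
    rintro rfl
    obtain ⟨U, hU⟩ := hC
    have h1 : C *ᵥ V = 0 := by rw [hV]; funext p; simp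
    apply hV0
    have h3 : (↑U⁻¹ : Matrix (Fin (L + 1) × Fin n) (Fin (L + 1) × Fin n) H) * C = 1 := by
      rw [← hU, Units.inv_mul]
    have h2 : ((↑U⁻¹ : Matrix (Fin (L + 1) × Fin n) (Fin (L + 1) × Fin n) H) * C) *ᵥ V = 0 := by
      rw [← Matrix.mulVec_mulVec, h1, Matrix.mulVec_zero]
    rwa [h3, Matrix.one_mulVec] at h2
  set μ : ℝ := ‖l‖ with hμdef
  have hμ : 0 < μ := norm_pos_iff.2 hl0
  -- the root polynomial
  have hnotreal : ¬ l = (l.re : H) := by
    rw [hre]
    intro h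
    exact hl0 (h.trans Quaternion.coe_zero)
  have hroot : rootPoly C l = C ^ 2 + (μ ^ 2) • 1 := by
    unfold rootPoly
    rw [if_neg hnotreal, hre, mul_zero, zero_smul, sub_zero]
  have hker : ∀ W ∈ rootSubspace C l, C *ᵥ (C *ᵥ W) = -((μ ^ 2) • W) := by
    intro W hW
    have hW' : (C ^ 2 + (μ ^ 2) • 1) ^ (Fintype.card (Fin (L + 1) × Fin n)) *ᵥ W = 0 := by
      rw [← hroot]; exact hW
    have hstep : ∀ k : ℕ, (C ^ 2 + (μ ^ 2) • 1) ^ (k + 1) *ᵥ W = 0 →
        (C ^ 2 + (μ ^ 2) • 1) *ᵥ W = 0 := by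
      intro k
      induction k with
      | zero => intro h; rwa [zero_add, pow_one] at h
      | succ k ih =>
        intro h
        apply ih
        rw [pow_succ', ← Matrix.mulVec_mulVec]
        apply kernel_sq hinv hb hμ
        rw [← hCdef, Matrix.mulVec_mulVec, Matrix.mulVec_mulVec, ← sq, ← pow_add,
          show 2 + k = k + 1 + 1 by ring]
        exact h
    have hcard : Fintype.card (Fin (L + 1) × Fin n) = (Fintype.card (Fin (L + 1) × Fin n) - 1) + 1 := by
      have : 0 < Fintype.card (Fin (L + 1) × Fin n) := by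
        rw [Fintype.card_prod, Fintype.card_fin, Fintype.card_fin]
        exact Nat.mul_pos (by omega) (by omega)
      omega
    rw [hcard] at hW'
    have h1 := hstep _ hW'
    rw [Matrix.add_mulVec, sq C, ← Matrix.mulVec_mulVec, Matrix.smul_mulVec,
      Matrix.one_mulVec] at h1
    exact eq_neg_of_add_eq_zero_left h1
  -- the form is real
  have hreal : ∀ W : Fin (L + 1) × Fin n → H,
      star W ⬝ᵥ ((gmat (L + 1) A * C) *ᵥ W) = ((qf A W : ℝ) : H) := by
    intro W
    have h1 : star (star W ⬝ᵥ ((gmat (L + 1) A * C) *ᵥ W)) = star W ⬝ᵥ ((gmat (L + 1) A * C) *ᵥ W) := by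
      rw [← Matrix.star_dotProduct_star, star_star, Matrix.star_mulVec, gc_herm hA hinv,
        Matrix.dotProduct_mulVec]
    exact Quaternion.star_eq_self.1 h1
  -- eigenvectors from vectors of the root subspace
  have hdec : ∀ W ∈ rootSubspace C l, W ≠ 0 → ∃ a b : Fin (L + 1) × Fin n → H,
      C *ᵥ a = (fun p => a p * om μ) ∧ C *ᵥ b = (fun p => b p * om μ) ∧ (a ≠ 0 ∨ b ≠ 0) ∧
      qf A W = qf A a + qf A b := by
    intro W hW hW0
    obtain ⟨a, b, ha, hb', hab⟩ := decompose C hμ W (hker W hW)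
    refine ⟨a, b, ha, hb', ?_, ?_⟩
    · by_contra hcon
      push Not at hcon
      apply hW0
      rw [hab, hcon.1, hcon.2]
      funext p; simp
    · rw [hab]; exact qf_decompose hA hinv hμ ha hb'
  have hq0 : qf A (0 : Fin (L + 1) × Fin n → H) = 0 := by
    have := qf_smul (A := A) (0 : ℝ) (0 : Fin (L + 1) × Fin n → H)
    rw [smul_zero] at this
    rw [this]; ring
  have hneg : ∀ W ∈ rootSubspace C l, W ≠ 0 → qf A W ≤ 0 → ∃ c : Fin (L + 1) × Fin n → H,
      C *ᵥ c = (fun p => c p * om μ) ∧ c ≠ 0 ∧ qf A c < 0 := by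
    intro W hW hW0 hle
    obtain ⟨a, b, ha, hb', hab, hq⟩ := hdec W hW hW0
    by_cases ha0 : a = 0
    · have hb0 : b ≠ 0 := by rcases hab with h | h; exact absurd ha0 h; exact h
      rw [ha0, hq0, zero_add] at hq
      exact ⟨b, hb', hb0, lt_of_le_of_ne (hq ▸ hle) (no_neutral hA hinv hst hμ hb' hb0)⟩
    · by_cases hb0 : b = 0
      · rw [hb0, hq0, add_zero] at hq
        exact ⟨a, ha, ha0, lt_of_le_of_ne (hq ▸ hle) (no_neutral hA hinv hst hμ ha ha0)⟩
      · by_cases hqa : qf A a ≤ 0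
        · exact ⟨a, ha, ha0, lt_of_le_of_ne hqa (no_neutral hA hinv hst hμ ha ha0)⟩
        · push Not at hqa
          exact ⟨b, hb', hb0, by linarith⟩
  have hpos : ∀ W ∈ rootSubspace C l, W ≠ 0 → 0 ≤ qf A W → ∃ c : Fin (L + 1) × Fin n → H,
      C *ᵥ c = (fun p => c p * om μ) ∧ c ≠ 0 ∧ 0 < qf A c := by
    intro W hW hW0 hle
    obtain ⟨a, b, ha, hb', hab, hq⟩ := hdec W hW hW0
    by_cases ha0 : a = 0
    · have hb0 : b ≠ 0 := by rcases hab with h | h; exact absurd ha0 h; exact h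
      rw [ha0, hq0, zero_add] at hq
      exact ⟨b, hb', hb0, lt_of_le_of_ne (hq ▸ hle) (no_neutral hA hinv hst hμ hb' hb0).symm⟩
    · by_cases hb0 : b = 0
      · rw [hb0, hq0, add_zero] at hq
        exact ⟨a, ha, ha0, lt_of_le_of_ne (hq ▸ hle) (no_neutral hA hinv hst hμ ha ha0).symm⟩
      · by_cases hqa : 0 ≤ qf A a
        · exact ⟨a, ha, ha0, lt_of_le_of_ne hqa (no_neutral hA hinv hst hμ ha ha0).symm⟩
        · push Not at hqa
          exact ⟨b, hb', hb0, by linarith⟩
  by_cases hall : ∀ W ∈ rootSubspace C l, W ≠ 0 → 0 < qf A W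
  · left
    intro W hW hW0
    exact ⟨qf A W, hall W hW hW0, hreal W⟩
  · right
    push Not at hall
    obtain ⟨W1, hW1, hW10, hle1⟩ := hall
    obtain ⟨c, hc, hc0, hqc⟩ := hneg W1 hW1 hW10 hle1
    intro W hW hW0
    refine ⟨qf A W, ?_, hreal W⟩
    by_contra hcon
    push Not at hcon
    obtain ⟨d, hd, -, hqd⟩ := hpos W hW hW0 hcon
    exact definite_eig hA hinv hst hμ hc hc0 hd hqc hqd

end Pool.Agent.Results.MP_554556_an.DefiniteRootSubspaces
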